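import Mathlib

set_option autoImplicit false

namespace Pool.Agent.H.MP_095559_gt

open Matrix Topology

abbrev E (N : ℕ) : Type := EuclideanSpace ℝ (Fin N)

abbrev M3 : Type := Matrix (Fin 3) (Fin 3) ℝ

def toM (x : E 9) : M3 := !![x 0, x 1, x 2; x 3, x 4, x 5; x 6, x 7, x 8]

def ofM (A : M3) : E 9 := !₂[A 0 0, A 0 1, A 0 2, A 1 0, A 1 1, A 1 2, A 2 0, A 2 1, A 2 2]

lemma toM_ofM (A : M3) : toM (ofM A) = A := by
  ext i j; fin_cases i <;> fin_cases j <;> simp [toM, ofM]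

lemma ofM_toM (x : E 9) : ofM (toM x) = x := by
  ext i; fin_cases i <;> simp [toM, ofM]

def SO : Set (E 9) := {x | toM x * (toM x)ᵀ = 1 ∧ 0 < (toM x).det}

noncomputable def phi (x : E 9) : E 6 :=
  !₂[x 0 ^ 2 + x 1 ^ 2 + x 2 ^ 2 - 1, x 3 ^ 2 + x 4 ^ 2 + x 5 ^ 2 - 1,
    x 6 ^ 2 + x 7 ^ 2 + x 8 ^ 2 - 1, x 0 * x 3 + x 1 * x 4 + x 2 * x 5,
    x 0 * x 6 + x 1 * x 7 + x 2 * x 8, x 3 * x 6 + x 4 * x 7 + x 5 * x 8]

lemma orth_iff (x : E 9) : toM x * (toM x)ᵀ = 1 ↔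
    x 0 ^ 2 + x 1 ^ 2 + x 2 ^ 2 = 1 ∧ x 3 ^ 2 + x 4 ^ 2 + x 5 ^ 2 = 1 ∧
    x 6 ^ 2 + x 7 ^ 2 + x 8 ^ 2 = 1 ∧ x 0 * x 3 + x 1 * x 4 + x 2 * x 5 = 0 ∧
    x 0 * x 6 + x 1 * x 7 + x 2 * x 8 = 0 ∧ x 3 * x 6 + x 4 * x 7 + x 5 * x 8 = 0 := by
  constructor
  · intro h
    have e := fun i j => congrFun (congrFun h i) j
    have e00 := e 0 0
    have e11 := e 1 1
    have e22 := e 2 2
    have e01 := e 0 1
    have e02 := e 0 2
    have e12 := e 1 2
    simp [toM, Matrix.mul_apply, Fin.sum_univ_three] at e00 e11 e22 e01 e02 e12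
    refine ⟨?_, ?_, ?_, ?_, ?_, ?_⟩ <;> linarith
  · rintro ⟨h1, h2, h3, h4, h5, h6⟩
    ext i j
    fin_cases i <;> fin_cases j <;> simp [toM, Matrix.mul_apply, Fin.sum_univ_three] <;> linarith

lemma phi_iff (x : E 9) : phi x = 0 ↔ toM x * (toM x)ᵀ = 1 := by
  rw [orth_iff]
  constructor
  · intro h
    have e := fun i => congrArg (fun v : E 6 => v i) h
    have e0 := e 0
    have e1 := e 1
    have e2 := e 2
    have e3 := e 3
    have e4 := e 4
    have e5 := e 5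
    simp [phi] at e0 e1 e2 e3 e4 e5
    refine ⟨?_, ?_, ?_, ?_, ?_, ?_⟩ <;> linarith
  · rintro ⟨h1, h2, h3, h4, h5, h6⟩
    ext i
    fin_cases i <;> simp [phi] <;> linarith

lemma phi_smooth : ContDiff ℝ (⊤ : ℕ∞) phi := by
  rw [contDiff_euclidean]
  intro i
  fin_cases i <;> simp [phi] <;> fun_prop

lemma det_cont : Continuous fun x : E 9 => (toM x).det := by
  simp only [toM, Matrix.det_fin_three]
  simp
  fun_prop

lemma det_one {x : E 9} (h : x ∈ SO) : (toM x).det = 1 := by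
  have h1 := congrArg Matrix.det h.1
  rw [Matrix.det_mul, Matrix.det_transpose, Matrix.det_one] at h1
  have := h.2
  nlinarith

lemma phi_surj {x : E 9} (h : x ∈ SO) : Function.Surjective (fderiv ℝ phi x) := by
  obtain ⟨h1, h2, h3, h4, h5, h6⟩ := (orth_iff x).1 h.1
  intro s
  let v : E 9 := !₂[(s 0 * x 0 + s 3 * x 3 + s 4 * x 6) / 2, (s 0 * x 1 + s 3 * x 4 + s 4 * x 7) / 2,
    (s 0 * x 2 + s 3 * x 5 + s 4 * x 8) / 2, (s 3 * x 0 + s 1 * x 3 + s 5 * x 6) / 2,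
    (s 3 * x 1 + s 1 * x 4 + s 5 * x 7) / 2, (s 3 * x 2 + s 1 * x 5 + s 5 * x 8) / 2,
    (s 4 * x 0 + s 5 * x 3 + s 2 * x 6) / 2, (s 4 * x 1 + s 5 * x 4 + s 2 * x 7) / 2,
    (s 4 * x 2 + s 5 * x 5 + s 2 * x 8) / 2]
  refine ⟨v, ?_⟩
  have hd : DifferentiableAt ℝ phi x := (phi_smooth.differentiable (by simp)) x
  have hl : HasDerivAt (fun t : ℝ => x + t • v) v 0 := by
    simpa using ((hasDerivAt_id (0 : ℝ)).smul_const v).const_add x
  have hc : HasDerivAt (fun t : ℝ => phi (x + t • v)) (fderiv ℝ phi x v) 0 := by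
    have : HasFDerivAt phi (fderiv ℝ phi x) (x + (0 : ℝ) • v) := by simpa using hd.hasFDerivAt
    exact this.comp_hasDerivAt 0 hl
  have he : (fun t : ℝ => phi (x + t • v)) = fun t => t • s + t ^ 2 • (phi v + !₂[1, 1, 1, 0, 0, 0]) := by
    funext t
    ext i
    fin_cases i <;> simp [phi, v]
    · linear_combination (1 + t * s 0) * h1 + t * s 3 * h4 + t * s 4 * h5
    · linear_combination (1 + t * s 1) * h2 + t * s 3 * h4 + t * s 5 * h6
    · linear_combination (1 + t * s 2) * h3 + t * s 4 * h5 + t * s 5 * h6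
    · linear_combination (1 + t * (s 0 + s 1) / 2) * h4 + t * s 3 / 2 * (h1 + h2) +
        t * s 5 / 2 * h5 + t * s 4 / 2 * h6
    · linear_combination (1 + t * (s 0 + s 2) / 2) * h5 + t * s 4 / 2 * (h1 + h3) +
        t * s 5 / 2 * h4 + t * s 3 / 2 * h6
    · linear_combination (1 + t * (s 1 + s 2) / 2) * h6 + t * s 5 / 2 * (h2 + h3) +
        t * s 4 / 2 * h4 + t * s 3 / 2 * h5
  rw [he] at hc
  have h0 := ((hasDerivAt_id (0 : ℝ)).smul_const s).add
    (((hasDerivAt_id (0 : ℝ)).pow 2).smul_const (phi v + !₂[1, 1, 1, 0, 0, 0]))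
  have := hc.unique h0
  simpa using this

lemma SO_compact : IsCompact SO := by
  refine Metric.isCompact_of_isClosed_isBounded ?_ ?_
  · have : SO = {x | phi x = 0} ∩ {x | (toM x).det = 1} := by
      ext x
      exact ⟨fun h => ⟨(phi_iff x).2 h.1, det_one h⟩,
        fun h => ⟨(phi_iff x).1 h.1, by rw [show (toM x).det = 1 from h.2]; exact one_pos⟩⟩
    rw [this]
    exact (isClosed_eq phi_smooth.continuous continuous_const).inter
      (isClosed_eq det_cont continuous_const)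
  · refine (Metric.isBounded_closedBall (x := (0 : E 9)) (r := 2)).subset fun x hx => ?_
    obtain ⟨h1, h2, h3, -⟩ := (orth_iff x).1 hx.1
    rw [mem_closedBall_zero_iff, EuclideanSpace.norm_eq, Real.sqrt_le_left (by norm_num)]
    simp [Fin.sum_univ_succ]
    linarith

/-- Rotations in the coordinate planes. -/
noncomputable def R01 (a : ℝ) : M3 :=
  !![Real.cos a, Real.sin a, 0; -Real.sin a, Real.cos a, 0; 0, 0, 1]
noncomputable def R02 (a : ℝ) : M3 :=
  !![Real.cos a, 0, Real.sin a; 0, 1, 0; -Real.sin a, 0, Real.cos a]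
noncomputable def R12 (a : ℝ) : M3 :=
  !![1, 0, 0; 0, Real.cos a, Real.sin a; 0, -Real.sin a, Real.cos a]

def G (A : M3) : Prop := A * Aᵀ = 1 ∧ 0 < A.det

lemma G_mul {A B : M3} (a : G A) (b : G B) : G (A * B) :=
  ⟨by rw [transpose_mul, Matrix.mul_assoc, ← Matrix.mul_assoc B, b.1, Matrix.one_mul, a.1],
    by rw [det_mul]; exact mul_pos a.2 b.2⟩

lemma G01 (a : ℝ) : G (R01 a) := by
  have := Real.cos_sq_add_sin_sq a
  constructor
  · ext i j
    fin_cases i <;> fin_cases j <;> simp [R01, Matrix.mul_apply, Fin.sum_univ_three] <;> linarith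
  · simp [R01, Matrix.det_fin_three]; linarith

lemma G02 (a : ℝ) : G (R02 a) := by
  have := Real.cos_sq_add_sin_sq a
  constructor
  · ext i j
    fin_cases i <;> fin_cases j <;> simp [R02, Matrix.mul_apply, Fin.sum_univ_three] <;> linarith
  · simp [R02, Matrix.det_fin_three]; linarith

lemma G12 (a : ℝ) : G (R12 a) := by
  have := Real.cos_sq_add_sin_sq a
  constructor
  · ext i j
    fin_cases i <;> fin_cases j <;> simp [R12, Matrix.mul_apply, Fin.sum_univ_three] <;> linarith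
  · simp [R12, Matrix.det_fin_three]; linarith

lemma mem_ofM {A : M3} (h : G A) : ofM A ∈ SO := by
  unfold SO; rw [Set.mem_ofPred_eq, toM_ofM]; exact h

lemma polar (u v : ℝ) : ∃ a r : ℝ, 0 ≤ r ∧ u = r * Real.cos a ∧ v = r * Real.sin a :=
  ⟨Complex.arg ⟨u, v⟩, ‖(⟨u, v⟩ : ℂ)‖, norm_nonneg _, (Complex.norm_mul_cos_arg ⟨u, v⟩).symm,
    (Complex.norm_mul_sin_arg ⟨u, v⟩).symm⟩

lemma euler {A : M3} (h : G A) : ∃ a b c : ℝ, A = R12 c * (R01 b * R12 a) := by
  obtain ⟨a, r, hr, h1, h2⟩ := polar (A 0 1) (A 0 2)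
  obtain ⟨b, s, hs, h3, h4⟩ := polar (A 0 0) r
  have ca := Real.cos_sq_add_sin_sq a
  have cb := Real.cos_sq_add_sin_sq b
  have e00 := congrFun (congrFun h.1 0) 0
  simp [Matrix.mul_apply, Fin.sum_univ_three] at e00
  have hs1 : s = 1 := by
    have : s ^ 2 = 1 := by
      rw [h1, h2, h3] at e00
      have : r ^ 2 = s ^ 2 * Real.sin b ^ 2 := by rw [h4]; ring
      nlinarith
    nlinarith
  rw [hs1, one_mul] at h3 h4
  have gB := G_mul (G01 b) (G12 a)
  have gT : G (R01 b * R12 a)ᵀ :=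
    ⟨by rw [transpose_transpose]; exact mul_eq_one_comm.1 gB.1, by rw [det_transpose]; exact gB.2⟩
  obtain ⟨C, hC⟩ : ∃ C, C = A * (R01 b * R12 a)ᵀ := ⟨_, rfl⟩
  have gC : G C := hC ▸ G_mul h gT
  have hA : A = C * (R01 b * R12 a) := by
    rw [hC, Matrix.mul_assoc, mul_eq_one_comm.1 gB.1, Matrix.mul_one]
  have c00 : C 0 0 = 1 := by
    rw [hC]; simp [R01, R12, Matrix.mul_apply, Fin.sum_univ_three, h1, h2, h3, h4]
    linear_combination cb + Real.sin b ^ 2 * ca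
  have c01 : C 0 1 = 0 := by
    rw [hC]; simp [R01, R12, Matrix.mul_apply, Fin.sum_univ_three, h1, h2, h3, h4]
    linear_combination Real.sin b * Real.cos b * ca
  have c02 : C 0 2 = 0 := by
    rw [hC]; simp [R01, R12, Matrix.mul_apply, Fin.sum_univ_three, h1, h2, h3, h4]
    ring
  have f := fun i j => congrFun (congrFun gC.1 i) j
  have f01 := f 0 1
  have f02 := f 0 2
  have f11 := f 1 1
  have f12 := f 1 2
  have f22 := f 2 2
  have hd := gC.2
  simp [Matrix.mul_apply, Fin.sum_univ_three, c00, c01, c02] at f01 f02 f11 f12 f22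
  simp [Matrix.det_fin_three, c00, c01, c02] at hd
  simp only [f01, f02, mul_zero, zero_add] at f11 f12 f22
  obtain ⟨c, t, ht, h5, h6⟩ := polar (C 1 1) (C 1 2)
  have cc := Real.cos_sq_add_sin_sq c
  have ht1 : t = 1 := by
    rw [h5, h6] at f11
    have : t ^ 2 = 1 := by linear_combination f11 - t ^ 2 * cc
    nlinarith
  rw [ht1, one_mul] at h5 h6
  rw [h5, h6] at f12 hd
  have hD : Real.cos c * C 2 2 - Real.sin c * C 2 1 = 1 := by
    have : (Real.cos c * C 2 2 - Real.sin c * C 2 1) ^ 2 = 1 := by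
      linear_combination (C 2 1 ^ 2 + C 2 2 ^ 2) * cc + f22 -
        (Real.cos c * C 2 1 + Real.sin c * C 2 2) * f12
    nlinarith
  refine ⟨a, b, c, ?_⟩
  rw [hA]
  congr 1
  ext i j
  fin_cases i <;> fin_cases j <;> simp [R12, c00, c01, c02, f01, f02, h5, h6]
  · linear_combination Real.cos c * f12 - Real.sin c * hD - C 2 1 * cc
  · linear_combination Real.sin c * f12 + Real.cos c * hD - C 2 2 * cc

lemma SO_conn : IsConnected SO := by
  have : SO = Set.range fun p : ℝ × ℝ × ℝ => ofM (R12 p.2.2 * (R01 p.2.1 * R12 p.1)) := by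
    ext x
    constructor
    · intro h
      obtain ⟨a, b, c, e⟩ := euler (A := toM x) h
      exact ⟨(a, b, c), by simp only; rw [← e, ofM_toM]⟩
    · rintro ⟨p, rfl⟩
      exact mem_ofM (G_mul (G12 _) (G_mul (G01 _) (G12 _)))
  rw [this]
  refine isConnected_range ?_
  unfold ofM
  simp [R12, R01, Matrix.mul_apply, Fin.sum_univ_three]
  fun_prop

end Pool.Agent.H.MP_095559_gt
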