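import Mathlib
import Pool.Agent.H.MP_095559_gt.A

set_option autoImplicit false

namespace Pool.Agent.H.MP_095559_gt

open Matrix Topology

def Nrm (x z : E 9) : Prop :=
  ∀ (c : ℝ → E 9) (v : E 9), c 0 = x → (∀ᶠ t in 𝓝 (0 : ℝ), c t ∈ SO) → HasDerivAt c v 0 →
    inner ℝ z v = 0

lemma nrm_gen {x z : E 9} (hx : x ∈ SO) (h : Nrm x z) (R : ℝ → M3) (K : M3) (hG : ∀ a, G (R a))
    (hR : ∀ a, R a = (1 + K * K) + Real.sin a • K - Real.cos a • (K * K)) :
    inner ℝ z (ofM (K * toM x)) = 0 := by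
  have e : (fun a => ofM (R a * toM x)) = fun a => ofM ((1 + K * K) * toM x) +
      Real.sin a • ofM (K * toM x) - Real.cos a • ofM (K * K * toM x) := by
    funext a
    rw [hR, Matrix.sub_mul, Matrix.add_mul, Matrix.smul_mul, Matrix.smul_mul]
    ext i
    fin_cases i <;> simp [ofM]
  refine h (fun a => ofM (R a * toM x)) _ ?_
    (Filter.Eventually.of_forall fun a => mem_ofM (G_mul (hG a) hx)) ?_
  · simp only [hR]
    simp [ofM_toM]
  · rw [e]
    have := (((Real.hasDerivAt_sin 0).smul_const (ofM (K * toM x))).const_add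
      (ofM ((1 + K * K) * toM x))).sub ((Real.hasDerivAt_cos 0).smul_const (ofM (K * K * toM x)))
    refine this.congr_deriv ?_
    simp

lemma nrm_eqs {x z : E 9} (hx : x ∈ SO) (h : Nrm x z) :
    z 0 * x 3 + z 1 * x 4 + z 2 * x 5 = z 3 * x 0 + z 4 * x 1 + z 5 * x 2 ∧
    z 0 * x 6 + z 1 * x 7 + z 2 * x 8 = z 6 * x 0 + z 7 * x 1 + z 8 * x 2 ∧
    z 3 * x 6 + z 4 * x 7 + z 5 * x 8 = z 6 * x 3 + z 7 * x 4 + z 8 * x 5 := by
  have a := nrm_gen hx h R01 !![0, 1, 0; -1, 0, 0; 0, 0, 0] G01 fun a => by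
    ext i j; fin_cases i <;> fin_cases j <;> simp [R01]
  have b := nrm_gen hx h R02 !![0, 0, 1; 0, 0, 0; -1, 0, 0] G02 fun a => by
    ext i j; fin_cases i <;> fin_cases j <;> simp [R02]
  have c := nrm_gen hx h R12 !![0, 0, 0; 0, 0, 1; 0, -1, 0] G12 fun a => by
    ext i j; fin_cases i <;> fin_cases j <;> simp [R12]
  simp [ofM, toM, PiLp.inner_apply, Fin.sum_univ_succ] at a b c
  refine ⟨?_, ?_, ?_⟩ <;> linarith

lemma cst {f : ℝ → ℝ} {l : ℝ} (h : ∀ s ∈ Set.Icc 0 l, HasDerivWithinAt f 0 (Set.Icc 0 l) s) :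
    ∀ s ∈ Set.Icc 0 l, f s = f 0 :=
  constant_of_has_deriv_right_zero (fun s hs => (h s hs).continuousWithinAt) fun s hs =>
    (h s (Set.Ico_subset_Icc_self hs)).mono_of_mem_nhdsWithin (Icc_mem_nhdsGE_of_mem hs)

/-- A geodesic segment is a one-parameter rotation; its axis is fixed by the end point. -/
lemma axis {γ d w : ℝ → E 9} {l : ℝ} (hl : 0 < l)
    (h1 : ∀ s ∈ Set.Icc 0 l, HasDerivWithinAt γ (d s) (Set.Icc 0 l) s)
    (h2 : ∀ s ∈ Set.Icc 0 l, HasDerivWithinAt d (w s) (Set.Icc 0 l) s)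
    (h3 : ∀ s ∈ Set.Icc 0 l, γ s ∈ SO) (h4 : ∀ s ∈ Set.Icc 0 l, Nrm (γ s) (w s)) :
    ∃ a b c : ℝ, toM (d 0) = !![0, a, b; -a, 0, c; -b, -c, 0] * toM (γ 0) ∧
      ![c, -b, a] ᵥ* toM (γ l) = ![c, -b, a] ᵥ* toM (γ 0) := by
  have g : ∀ s ∈ Set.Icc 0 l, ∀ k, HasDerivWithinAt (fun s => γ s k) (d s k) (Set.Icc 0 l) s :=
    fun s hs k => (EuclideanSpace.proj k : E 9 →L[ℝ] ℝ).hasFDerivAt.comp_hasDerivWithinAt s (h1 s hs)
  have g' : ∀ s ∈ Set.Icc 0 l, ∀ k, HasDerivWithinAt (fun s => d s k) (w s k) (Set.Icc 0 l) s :=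
    fun s hs k => (EuclideanSpace.proj k : E 9 →L[ℝ] ℝ).hasFDerivAt.comp_hasDerivWithinAt s (h2 s hs)
  have uq : ∀ s ∈ Set.Icc 0 l, UniqueDiffWithinAt ℝ (Set.Icc 0 l) s := uniqueDiffOn_Icc hl
  have sk : ∀ s ∈ Set.Icc 0 l, ∀ (i j k i' j' k' : Fin 9) (c : ℝ),
      (∀ t ∈ Set.Icc 0 l, γ t i * γ t i' + γ t j * γ t j' + γ t k * γ t k' = c) →
      d s i * γ s i' + d s j * γ s j' + d s k * γ s k' +
        (γ s i * d s i' + γ s j * d s j' + γ s k * d s k') = 0 := by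
    intro s hs i j k i' j' k' c hc
    have a := (((g s hs i).mul (g s hs i')).add ((g s hs j).mul (g s hs j'))).add
      ((g s hs k).mul (g s hs k'))
    have b : HasDerivWithinAt (fun t => γ t i * γ t i' + γ t j * γ t j' + γ t k * γ t k') 0
        (Set.Icc 0 l) s := (hasDerivWithinAt_const s _ c).congr hc (hc s hs)
    have := (uq s hs).eq_deriv _ a b
    linarith
  have om : ∀ (i j k i' j' k' : Fin 9), (∀ t ∈ Set.Icc 0 l,
      w t i * γ t i' + w t j * γ t j' + w t k * γ t k' =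
        w t i' * γ t i + w t j' * γ t j + w t k' * γ t k) → ∀ s ∈ Set.Icc 0 l,
      d s i * γ s i' + d s j * γ s j' + d s k * γ s k' -
        (d s i' * γ s i + d s j' * γ s j + d s k' * γ s k) =
      d 0 i * γ 0 i' + d 0 j * γ 0 j' + d 0 k * γ 0 k' -
        (d 0 i' * γ 0 i + d 0 j' * γ 0 j + d 0 k' * γ 0 k) := by
    intro i j k i' j' k' hc
    refine cst (f := fun s => d s i * γ s i' + d s j * γ s j' + d s k * γ s k' -
        (d s i' * γ s i + d s j' * γ s j + d s k' * γ s k)) fun s hs => ?_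
    have a := ((((g' s hs i).mul (g s hs i')).add ((g' s hs j).mul (g s hs j'))).add
      ((g' s hs k).mul (g s hs k'))).sub ((((g' s hs i').mul (g s hs i)).add
        ((g' s hs j').mul (g s hs j))).add ((g' s hs k').mul (g s hs k)))
    refine a.congr_deriv ?_
    linear_combination hc s hs
  have o := fun t ht => (orth_iff (γ t)).1 (h3 t ht).1
  have n := fun t ht => nrm_eqs (h3 t ht) (h4 t ht)
  have h0 : (0 : ℝ) ∈ Set.Icc 0 l := ⟨le_rfl, hl.le⟩
  obtain ⟨a, ha⟩ : ∃ a, a = d 0 0 * γ 0 3 + d 0 1 * γ 0 4 + d 0 2 * γ 0 5 := ⟨_, rfl⟩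
  obtain ⟨b, hb⟩ : ∃ b, b = d 0 0 * γ 0 6 + d 0 1 * γ 0 7 + d 0 2 * γ 0 8 := ⟨_, rfl⟩
  obtain ⟨c, hc⟩ : ∃ c, c = d 0 3 * γ 0 6 + d 0 4 * γ 0 7 + d 0 5 * γ 0 8 := ⟨_, rfl⟩
  have key : ∀ s ∈ Set.Icc 0 l, toM (d s) = !![0, a, b; -a, 0, c; -b, -c, 0] * toM (γ s) := by
    intro s hs
    have s00 := sk s hs 0 1 2 0 1 2 1 fun t ht => by linarith [(o t ht).1]
    have s11 := sk s hs 3 4 5 3 4 5 1 fun t ht => by linarith [(o t ht).2.1]
    have s22 := sk s hs 6 7 8 6 7 8 1 fun t ht => by linarith [(o t ht).2.2.1]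
    have s01 := fun s hs => sk s hs 0 1 2 3 4 5 0 fun t ht => (o t ht).2.2.2.1
    have s02 := fun s hs => sk s hs 0 1 2 6 7 8 0 fun t ht => (o t ht).2.2.2.2.1
    have s12 := fun s hs => sk s hs 3 4 5 6 7 8 0 fun t ht => (o t ht).2.2.2.2.2
    have o01 := om 0 1 2 3 4 5 (fun t ht => (n t ht).1) s hs
    have o02 := om 0 1 2 6 7 8 (fun t ht => (n t ht).2.1) s hs
    have o12 := om 3 4 5 6 7 8 (fun t ht => (n t ht).2.2) s hs
    have e : toM (d s) * (toM (γ s))ᵀ = !![0, a, b; -a, 0, c; -b, -c, 0] := by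
      ext i j
      fin_cases i <;> fin_cases j <;> simp [toM, Matrix.mul_apply, Fin.sum_univ_three] <;>
        linarith [s01 s hs, s02 s hs, s12 s hs, s01 0 h0, s02 0 h0, s12 0 h0]
    rw [← e, Matrix.mul_assoc, mul_eq_one_comm.1 (h3 s hs).1, Matrix.mul_one]
  refine ⟨a, b, c, key 0 h0, ?_⟩
  have fin : ∀ i j k : Fin 9, (∀ s ∈ Set.Icc 0 l, c * d s i - b * d s j + a * d s k = 0) →
      c * γ l i - b * γ l j + a * γ l k = c * γ 0 i - b * γ 0 j + a * γ 0 k := fun i j k h =>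
    cst (f := fun s => c * γ s i - b * γ s j + a * γ s k) (fun s hs =>
      ((((g s hs i).const_mul c).sub ((g s hs j).const_mul b)).add
        ((g s hs k).const_mul a)).congr_deriv (h s hs)) l ⟨hl.le, le_rfl⟩
  have ent : ∀ s ∈ Set.Icc 0 l, c * d s 0 - b * d s 3 + a * d s 6 = 0 ∧
      c * d s 1 - b * d s 4 + a * d s 7 = 0 ∧ c * d s 2 - b * d s 5 + a * d s 8 = 0 := by
    intro s hs
    have e := congrArg (fun M : M3 => ![c, -b, a] ᵥ* M) (key s hs)
    simp only [← Matrix.vecMul_vecMul] at e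
    have z : ![c, -b, a] ᵥ* (!![0, a, b; -a, 0, c; -b, -c, 0] : M3) = 0 := by
      ext i; fin_cases i <;> simp [Matrix.vecMul, dotProduct, Fin.sum_univ_three] <;> ring
    rw [z, Matrix.zero_vecMul] at e
    have e0 := congrFun e 0
    have e1 := congrFun e 1
    have e2 := congrFun e 2
    simp [toM, Matrix.vecMul, dotProduct, Fin.sum_univ_three] at e0 e1 e2
    refine ⟨?_, ?_, ?_⟩ <;> linarith
  have f0 := fin 0 3 6 fun s hs => (ent s hs).1
  have f1 := fin 1 4 7 fun s hs => (ent s hs).2.1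
  have f2 := fin 2 5 8 fun s hs => (ent s hs).2.2
  ext i
  fin_cases i <;> simp [toM, Matrix.vecMul, dotProduct, Fin.sum_univ_three] <;> linarith

lemma norm_toM (x : E 9) : ‖x‖ ^ 2 = (toM x * (toM x)ᵀ).trace := by
  rw [EuclideanSpace.norm_sq_eq]
  simp only [Matrix.trace, Matrix.diag, Matrix.mul_apply, Matrix.transpose_apply,
    Fin.sum_univ_three]
  simp [toM, Fin.sum_univ_succ]
  ring

lemma fix_two {R : M3} (h : R * Rᵀ = 1) (hd : R.det = 1) (u v : Fin 3 → ℝ) (hu : u ᵥ* R = u)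
    (hv : v ᵥ* R = v) (huv : crossProduct u v ≠ 0) : R = 1 := by
  have hadj : R.adjugate = Rᵀ := by
    have h1 : R.adjugate * R = 1 := by rw [Matrix.adjugate_mul, hd, one_smul]
    calc R.adjugate = R.adjugate * (R * Rᵀ) := by rw [h, Matrix.mul_one]
      _ = Rᵀ := by rw [← Matrix.mul_assoc, h1, Matrix.one_mul]
  rw [Matrix.adjugate_fin_three] at hadj
  have e := fun i j => congrFun (congrFun hadj i) j
  have hx : crossProduct u v ᵥ* R = crossProduct (u ᵥ* R) (v ᵥ* R) := by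
    have e00 := e 0 0
    have e01 := e 0 1
    have e02 := e 0 2
    have e10 := e 1 0
    have e11 := e 1 1
    have e12 := e 1 2
    have e20 := e 2 0
    have e21 := e 2 1
    have e22 := e 2 2
    simp at e00 e01 e02 e10 e11 e12 e20 e21 e22
    ext i
    fin_cases i <;> simp [crossProduct, Matrix.vecMul, dotProduct, Fin.sum_univ_three]
    · linear_combination -(u 1 * v 2 - u 2 * v 1) * e00 - (u 2 * v 0 - u 0 * v 2) * e01 -
        (u 0 * v 1 - u 1 * v 0) * e02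
    · linear_combination -(u 1 * v 2 - u 2 * v 1) * e10 - (u 2 * v 0 - u 0 * v 2) * e11 -
        (u 0 * v 1 - u 1 * v 0) * e12
    · linear_combination -(u 1 * v 2 - u 2 * v 1) * e20 - (u 2 * v 0 - u 0 * v 2) * e21 -
        (u 0 * v 1 - u 1 * v 0) * e22
  rw [hu, hv] at hx
  let W : M3 := Matrix.of ![u, v, crossProduct u v]
  have hW : W * R = W * 1 := by
    rw [Matrix.mul_one]
    ext i j
    fin_cases i
    · exact congrFun hu j
    · exact congrFun hv j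
    · exact congrFun hx j
  have hdW : W.det ≠ 0 := by
    have : W.det = crossProduct u v ⬝ᵥ crossProduct u v := by
      simp [W, Matrix.det_fin_three, crossProduct, dotProduct, Fin.sum_univ_three]
      ring
    rw [this]
    exact fun h => huv (dotProduct_self_eq_zero.1 h)
  letI := Matrix.invertibleOfIsUnitDet W (Ne.isUnit hdW)
  exact Matrix.mul_right_injective_of_invertible W hW

theorem no_theta (p q : E 9) (γ d w : Fin 3 → ℝ → E 9) (l : Fin 3 → ℝ) (hl : ∀ i, 0 < l i)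
    (h1 : ∀ i, ∀ s ∈ Set.Icc 0 (l i), HasDerivWithinAt (γ i) (d i s) (Set.Icc 0 (l i)) s)
    (h2 : ∀ i, ∀ s ∈ Set.Icc 0 (l i), HasDerivWithinAt (d i) (w i s) (Set.Icc 0 (l i)) s)
    (h3 : ∀ i, ∀ s ∈ Set.Icc 0 (l i), γ i s ∈ SO)
    (h4 : ∀ i, ∀ s ∈ Set.Icc 0 (l i), Nrm (γ i s) (w i s))
    (h5 : ∀ i, ‖d i 0‖ = 1) (hp : ∀ i, γ i 0 = p) (hq : ∀ i, γ i (l i) = q)
    (hb : ∑ i, d i 0 = 0) : p = q := by
  choose a b c k1 k2 using fun i => axis (hl i) (h1 i) (h2 i) (h3 i) (h4 i)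
  simp only [hp, hq] at k1 k2
  have gp : G (toM p) := hp 0 ▸ h3 0 0 ⟨le_rfl, (hl 0).le⟩
  have mq : q ∈ SO := hq 0 ▸ h3 0 (l 0) ⟨(hl 0).le, le_rfl⟩
  have mp : p ∈ SO := gp
  have nn : ∀ i, 2 * (a i ^ 2 + b i ^ 2 + c i ^ 2) = 1 := by
    intro i
    have := norm_toM (d i 0)
    rw [h5, k1, transpose_mul, Matrix.mul_assoc, ← Matrix.mul_assoc (toM p), gp.1,
      Matrix.one_mul] at this
    simp only [Matrix.trace, Matrix.diag, Matrix.mul_apply, Matrix.transpose_apply,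
      Fin.sum_univ_three] at this
    simp at this
    linarith
  have hs : toM (d 0 0) + toM (d 1 0) + toM (d 2 0) = 0 := by
    rw [Fin.sum_univ_three] at hb
    have e := fun k => congrArg (fun v : E 9 => v k) hb
    simp only [PiLp.add_apply, PiLp.zero_apply] at e
    ext i j
    fin_cases i <;> fin_cases j <;> simp [toM, e]
  rw [k1, k1, k1, ← Matrix.add_mul, ← Matrix.add_mul] at hs
  have hs' := congrArg (fun M : M3 => M * (toM p)ᵀ) hs
  simp only [Matrix.mul_assoc, gp.1, Matrix.mul_one, Matrix.zero_mul] at hs'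
  have s1 := congrFun (congrFun hs' 0) 1
  have s2 := congrFun (congrFun hs' 0) 2
  have s3 := congrFun (congrFun hs' 1) 2
  simp at s1 s2 s3
  have hR : toM q * (toM p)ᵀ = 1 := by
    refine fix_two ?_ ?_ ![c 0, -b 0, a 0] ![c 1, -b 1, a 1] ?_ ?_ fun h => ?_
    · rw [transpose_mul, transpose_transpose, Matrix.mul_assoc, ← Matrix.mul_assoc (toM p)ᵀ,
        mul_eq_one_comm.1 gp.1, Matrix.one_mul, mq.1]
    · rw [det_mul, det_transpose, det_one mq, det_one mp, one_mul]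
    · rw [← Matrix.vecMul_vecMul, k2, Matrix.vecMul_vecMul, gp.1, Matrix.vecMul_one]
    · rw [← Matrix.vecMul_vecMul, k2, Matrix.vecMul_vecMul, gp.1, Matrix.vecMul_one]
    · have e0 := congrFun h 0
      have e1 := congrFun h 1
      have e2 := congrFun h 2
      simp [crossProduct] at e0 e1 e2
      have n0 := nn 0
      have n1 := nn 1
      have n2 := nn 2
      rw [show a 2 = -(a 0 + a 1) by linarith, show b 2 = -(b 0 + b 1) by linarith,
        show c 2 = -(c 0 + c 1) by linarith] at n2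
      have hd : a 0 * a 1 + b 0 * b 1 + c 0 * c 1 = -1 / 4 := by linarith
      have lag : (a 0 ^ 2 + b 0 ^ 2 + c 0 ^ 2) * (a 1 ^ 2 + b 1 ^ 2 + c 1 ^ 2) =
          (a 0 * a 1 + b 0 * b 1 + c 0 * c 1) ^ 2 := by
        have t0 : a 0 * b 1 - b 0 * a 1 = 0 := by linarith
        have t1 : a 0 * c 1 - c 0 * a 1 = 0 := by linarith
        have t2 : b 0 * c 1 - c 0 * b 1 = 0 := by linarith
        linear_combination (a 0 * b 1 - b 0 * a 1) * t0 + (a 0 * c 1 - c 0 * a 1) * t1 +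
          (b 0 * c 1 - c 0 * b 1) * t2
      rw [hd, show a 0 ^ 2 + b 0 ^ 2 + c 0 ^ 2 = 1 / 2 by linarith,
        show a 1 ^ 2 + b 1 ^ 2 + c 1 ^ 2 = 1 / 2 by linarith] at lag
      norm_num at lag
  have : toM q = toM p := by
    calc toM q = toM q * ((toM p)ᵀ * toM p) := by rw [mul_eq_one_comm.1 gp.1, Matrix.mul_one]
      _ = toM p := by rw [← Matrix.mul_assoc, hR, Matrix.one_mul]
  rw [← ofM_toM p, ← this, ofM_toM]

end Pool.Agent.H.MP_095559_gt
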